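import Pool.Agent.H21.SN.Tab

/-!
# SN.Div : the small divisors

`K k = j_k'(rho) / j_k(rho)`, so `K 0 = 0`, `K (k + 1) = y k / y (k + 1) - (k + 2) / rho`. `|K k| <= khat k / 1000 <= 612` for even
`2 <= k <= 1210`, `k <> 478`; `D_478 = 1 / K 478 = - 8.0413 * 10 ^ (-8)`.
-/

set_option autoImplicit false

namespace SN

/-- `j_k'(rho) / j_k(rho)` -/
noncomputable def K : ℕ → ℝ
  | 0 => 0
  | (k + 1) => y k / y (k + 1) - (k + 2) / rho

theorem K_zero : K 0 = 0 := by rw [K]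

theorem K_eq (k m : ℕ) (h : k = m + 1) : K k = y m / y k - ((k : ℝ) + 1) / rho := by
  subst h
  rw [K]
  push_cast
  ring

/-- upper bounds of `1000 |K k|` -/
def khat (k : ℕ) : ℕ := kh k (z k) (z (k - 1))

private theorem div_aux {a b a' b' c c' δ : ℝ} (hδ : 0 ≤ δ) (hδ1 : δ ≤ 2 / 10 ^ 11) (ha : |a' - a| ≤ δ)
    (hb : |b' - b| ≤ δ) (hc : |c' - c| ≤ 1 / 10 ^ 15) (hc0 : 0 ≤ c) (hc1 : c ≤ 1) (ha1 : 1 / 10 ^ 3 ≤ |a'|)
    (ha2 : |a'| ≤ 3) {Q : ℝ} (hQ0 : 0 ≤ Q) (hQ1 : Q ≤ 612) (hQ : |b' - c' * a'| ≤ (Q - 1 / 1000) * |a'|) :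
    9 / 10 ^ 4 ≤ |a| ∧ |b / a - c| ≤ Q := by
  have h1 : 9 / 10 ^ 4 ≤ |a| := by
    have : |a'| - |a' - a| ≤ |a| := by
      have := abs_sub_abs_le_abs_sub a' (a' - a)
      rw [sub_sub_cancel] at this
      exact this
    norm_num at *
    linarith
  have ha0 : a ≠ 0 := by
    intro h
    rw [h, abs_zero] at h1
    norm_num at h1
  refine ⟨h1, ?_⟩
  have e1 : b / a - c = (b - c * a) / a := by field_simp
  rw [e1, abs_div, div_le_iff₀ (lt_of_lt_of_le (by norm_num) h1)]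
  have e2 : b - c * a = (b' - c' * a') - (b' - b) + c * (a' - a) + (c' - c) * a' := by ring
  have h2 : |b - c * a| ≤ |b' - c' * a'| + δ + δ + 3 / 10 ^ 15 := by
    rw [e2]
    have t1 : |c * (a' - a)| ≤ δ := by
      rw [abs_mul, abs_of_nonneg hc0]
      exact (mul_le_of_le_one_left (abs_nonneg _) hc1).trans ha
    have t2 : |(c' - c) * a'| ≤ 3 / 10 ^ 15 := by
      rw [abs_mul]
      calc |c' - c| * |a'| ≤ 1 / 10 ^ 15 * 3 := mul_le_mul hc ha2 (abs_nonneg _) (by norm_num)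
        _ = 3 / 10 ^ 15 := by norm_num
    have t3 := abs_add_le ((b' - c' * a') - (b' - b) + c * (a' - a)) ((c' - c) * a')
    have t4 := abs_add_le ((b' - c' * a') - (b' - b)) (c * (a' - a))
    have t5 := abs_sub (b' - c' * a') (b' - b)
    linarith
  have h3 : |a'| ≤ |a| + δ := by
    have := abs_sub_abs_le_abs_sub a' a
    linarith
  have h4 : |b' - c' * a'| ≤ (Q - 1 / 1000) * |a'| := hQ
  have h5 : Q * |a'| ≤ Q * (|a| + δ) := mul_le_mul_of_nonneg_left h3 hQ0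
  have h6 : Q * δ ≤ 612 * (2 / 10 ^ 11) := mul_le_mul hQ1 hδ1 hδ (by norm_num)
  norm_num at *
  linarith

theorem rho_inv_close (k : ℕ) (hk : k ≤ 1210) :
    |((k : ℝ) + 1) * 10 ^ 15 / 1211083142251911040 - (k + 1) / rho| ≤ 1 / 10 ^ 15 := by
  have hr1 := rho_gt
  have hr2 := rho_lt
  have hr0 := rho_pos
  have hk' : (k : ℝ) ≤ 1210 := by exact_mod_cast hk
  have hk0 : (0 : ℝ) ≤ k := Nat.cast_nonneg k
  have e4 : ((k : ℝ) + 1) * 10 ^ 15 / 1211083142251911040 - (k + 1) / rho =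
      (k + 1) * (rho - 1211.08314225191104) / (1211.08314225191104 * rho) := by
    field_simp
    ring
  have e5 : |rho - 1211.08314225191104| ≤ 1 / 10 ^ 15 := by
    rw [abs_le]
    constructor
    · norm_num at hr1 ⊢
      linarith
    · norm_num at hr2 ⊢
      linarith
  rw [e4, abs_div, abs_of_pos (by positivity : (0 : ℝ) < 1211.08314225191104 * rho), div_le_iff₀ (by positivity),
    abs_mul, abs_of_nonneg (by positivity : (0 : ℝ) ≤ k + 1)]
  calc ((k : ℝ) + 1) * |rho - 1211.08314225191104| ≤ 1211 * (1 / 10 ^ 15) :=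
        mul_le_mul (by linarith) e5 (abs_nonneg _) (by norm_num)
    _ ≤ 1 / 10 ^ 15 * (1211.08314225191104 * rho) := by nlinarith

theorem natAbs_real (x : ℤ) : ((x.natAbs : ℕ) : ℝ) = |(x : ℝ)| := by
  rw [← Int.cast_abs, Int.abs_eq_natAbs, Int.cast_natCast]

theorem K_le (k : ℕ) (hk : Even k) (h2 : 2 ≤ k) (hk1 : k ≤ 1210) (h478 : k ≠ 478) :
    9 / 10 ^ 4 ≤ |y k| ∧ |K k| ≤ (khat k : ℝ) / 1000 ∧ khat k ≤ 612000 := by
  obtain ⟨n, rfl⟩ : ∃ n, k = n + 1 := ⟨k - 1, by omega⟩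
  have hn : n < 1210 := by omega
  have hc := chk_z n hn
  have hodd : ¬ n % 2 = 0 := by
    rw [Nat.even_iff] at hk
    omega
  have h477 : ¬ n = 477 := by omega
  simp only [chk, Bool.and_eq_true, Bool.or_eq_true, decide_eq_true_eq] at hc
  have hcc : 10 ^ 17 ≤ (z (n + 1)).natAbs ∧ kh (n + 1) (z (n + 1)) (z n) ≤ 612000 := by
    rcases hc.2 with (h | h) | h
    · exact absurd h hodd
    · exact absurd h h477
    · exact h
  obtain ⟨ha, hkh⟩ := hcc
  have hka : khat (n + 1) = kh (n + 1) (z (n + 1)) (z n) := rfl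
  have ha1 : (1 : ℝ) / 10 ^ 3 ≤ |(z (n + 1) : ℝ) / 10 ^ 20| := by
    rw [abs_div, abs_of_pos (by positivity : (0 : ℝ) < 10 ^ 20), ← Int.cast_abs, Int.abs_eq_natAbs,
      le_div_iff₀ (by positivity)]
    have : ((10 ^ 17 : ℕ) : ℝ) ≤ ((z (n + 1)).natAbs : ℝ) := Nat.cast_le.2 ha
    norm_num at this ⊢
    exact this
  have ha2 : |(z (n + 1) : ℝ) / 10 ^ 20| ≤ 3 := by
    rw [abs_div, abs_of_pos (by positivity : (0 : ℝ) < 10 ^ 20), div_le_iff₀ (by positivity)]
    exact z_le (n + 1) hk1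
  have hr1 := rho_gt
  have hr0 := rho_pos
  have hn0 : (0 : ℝ) ≤ n := Nat.cast_nonneg n
  have hn' : (n : ℝ) ≤ 1209 := by exact_mod_cast (by omega : n ≤ 1209)
  have key := div_aux (a := y (n + 1)) (b := y n) (a' := (z (n + 1) : ℝ) / 10 ^ 20) (b' := (z n : ℝ) / 10 ^ 20)
    (c := ((n + 1 : ℕ) + 1) / rho) (c' := (((n + 1 : ℕ) : ℝ) + 1) * 10 ^ 15 / 1211083142251911040)
    (δ := 2 / 10 ^ 11) (by norm_num) le_rfl (er_le (n + 1) hk1) (er_le n (by omega))
    (rho_inv_close (n + 1) hk1) (by positivity)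
    (by
      rw [div_le_one hr0]
      push_cast
      norm_num at hr1
      linarith) ha1 ha2 (Q := (khat (n + 1) : ℝ) / 1000) (by positivity)
    (by
      rw [div_le_iff₀ (by norm_num), hka]
      have : ((kh (n + 1) (z (n + 1)) (z n) : ℕ) : ℝ) ≤ ((612000 : ℕ) : ℝ) := Nat.cast_le.2 hkh
      norm_num at this ⊢
      exact this)
    (by
      have hapos : 0 < (z (n + 1)).natAbs := lt_of_lt_of_le (by norm_num) ha
      have hq := Nat.lt_div_mul_add (a := 1000 * (z n * 1211083142251911040 -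
        (((n + 1 : ℕ) : ℤ) + 1) * 10 ^ 15 * z (n + 1)).natAbs) (b := (z (n + 1)).natAbs * 1211083142251911040)
        (by positivity)
      have hkk : khat (n + 1) = 1000 * (z n * 1211083142251911040 -
        (((n + 1 : ℕ) : ℤ) + 1) * 10 ^ 15 * z (n + 1)).natAbs /
          ((z (n + 1)).natAbs * 1211083142251911040) + 2 := rfl
      obtain ⟨q, hq0⟩ : ∃ q, q = 1000 * (z n * 1211083142251911040 -
        (((n + 1 : ℕ) : ℤ) + 1) * 10 ^ 15 * z (n + 1)).natAbs /
          ((z (n + 1)).natAbs * 1211083142251911040) := ⟨_, rfl⟩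
      rw [← hq0] at hq hkk
      obtain ⟨X, hX⟩ : ∃ X : ℝ, X = (z n : ℝ) * 1211083142251911040 -
          (((n + 1 : ℕ) : ℝ) + 1) * 10 ^ 15 * z (n + 1) := ⟨_, rfl⟩
      have hq' : (1000 : ℝ) * |X| < (q + 1) * (|(z (n + 1) : ℝ)| * 1211083142251911040) := by
        rw [hX]
        have e1 : |(z n : ℝ) * 1211083142251911040 - (((n + 1 : ℕ) : ℝ) + 1) * 10 ^ 15 * z (n + 1)| =
            ((z n * 1211083142251911040 - (((n + 1 : ℕ) : ℤ) + 1) * 10 ^ 15 * z (n + 1)).natAbs : ℝ) := by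
          rw [natAbs_real]
          norm_num
        have e2 : |(z (n + 1) : ℝ)| = ((z (n + 1)).natAbs : ℝ) := by
          rw [natAbs_real]
        rw [e1, e2]
        have : ((1000 * (z n * 1211083142251911040 -
          (((n + 1 : ℕ) : ℤ) + 1) * 10 ^ 15 * z (n + 1)).natAbs : ℕ) : ℝ) <
            ((q * ((z (n + 1)).natAbs * 1211083142251911040) +
              (z (n + 1)).natAbs * 1211083142251911040 : ℕ) : ℝ) := Nat.cast_lt.2 hq
        push_cast at this ⊢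
        linarith
      rw [hkk]
      have e3 : (z n : ℝ) / 10 ^ 20 - (((n + 1 : ℕ) : ℝ) + 1) * 10 ^ 15 / 1211083142251911040 *
          ((z (n + 1) : ℝ) / 10 ^ 20) = ((z n : ℝ) * 1211083142251911040 -
            (((n + 1 : ℕ) : ℝ) + 1) * 10 ^ 15 * z (n + 1)) / (1211083142251911040 * 10 ^ 20) := by
        field_simp
      rw [e3, ← hX, abs_div, abs_div, abs_of_pos (by positivity : (0 : ℝ) < 1211083142251911040 * 10 ^ 20),
        abs_of_pos (by positivity : (0 : ℝ) < 10 ^ 20), div_le_iff₀ (by positivity)]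
      push_cast at hq' ⊢
      have e4 : ((((q : ℝ) + 2) / 1000 - 1 / 1000) * (|(z (n + 1) : ℝ)| / 10 ^ 20)) *
          (1211083142251911040 * 10 ^ 20) = (q + 1) * (|(z (n + 1) : ℝ)| * 1211083142251911040) / 1000 := by
        field_simp
        ring
      rw [e4]
      linarith)
  exact ⟨key.1, by rw [K_eq (n + 1) n rfl]; exact key.2, by rw [hka]; exact hkh⟩

theorem y_ne_zero (k : ℕ) (hk : Even k) (h2 : 2 ≤ k) (hk1 : k ≤ 1210) (h478 : k ≠ 478) : y k ≠ 0 := by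
  have h := (K_le k hk h2 hk1 h478).1
  intro h0
  rw [h0, abs_zero] at h
  norm_num at h

theorem K_le' (k : ℕ) (hk : Even k) (h2 : 2 ≤ k) (hk1 : k ≤ 1210) (h478 : k ≠ 478) : |K k| ≤ 612 := by
  obtain ⟨-, h, h'⟩ := K_le k hk h2 hk1 h478
  have : (khat k : ℝ) ≤ ((612000 : ℕ) : ℝ) := Nat.cast_le.2 h'
  push_cast at this
  linarith

/-- the check of two values -/
def chk2 (n : ℕ) (a b : ℤ) : Bool :=
  decide (n ≠ 477) || (decide (a = -7707247786570) && decide (b = 95845632324215571389))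

theorem run_chk2 : run chk2 1210 0 0 (10 ^ 20) = true := by
  decide +kernel

theorem z_478 : z 478 = -7707247786570 ∧ z 477 = 95845632324215571389 := by
  have h1 : ∀ i, i < 1210 → chk2 (0 + i) (z (0 + i + 1)) (z (0 + i)) = true := run_sound chk2 1210 0 run_chk2
  have h2 := h1 477 (by norm_num)
  rw [chk2, Bool.or_eq_true, Bool.and_eq_true, decide_eq_true_eq, decide_eq_true_eq, decide_eq_true_eq] at h2
  exact h2.resolve_left (by norm_num)

/-- the divisor `D_478 = j_478(rho) / j_478'(rho)` -/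
theorem D_478 : y 478 < 0 ∧ K 478 < 0 ∧ -8.0414 / 10 ^ 8 < 1 / K 478 ∧ 1 / K 478 < -8.0412 / 10 ^ 8 := by
  obtain ⟨h1, h2⟩ := z_478
  have e1 := er_le478 478 le_rfl
  have e2 := er_le478 477 (by norm_num)
  unfold er at e1 e2
  rw [h1] at e1
  rw [h2] at e2
  rw [abs_le] at e1 e2
  have hr1 := rho_gt
  have hr2 := rho_lt
  have hr0 := rho_pos
  have hK : K 478 = (y 477 - 479 / rho * y 478) / y 478 := by
    have hy : y 478 ≠ 0 := by
      intro h0
      rw [h0] at e1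
      norm_num at e1
    rw [K_eq 478 477 rfl, sub_div, mul_div_assoc, div_self hy, mul_one]
    norm_num
  have hi1 : 0.3955 < 479 / rho := by
    rw [lt_div_iff₀ hr0]
    norm_num at hr2 ⊢
    linarith
  have hi2 : 479 / rho < 0.3956 := by
    rw [div_lt_iff₀ hr0]
    norm_num at hr1 ⊢
    linarith
  clear h1 h2
  generalize 479 / rho = c at hi1 hi2 hK
  generalize K 478 = w at hK ⊢
  generalize y 478 = v at e1 hK ⊢
  generalize y 477 = u at e2 hK
  norm_num at e1 e2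
  have hy1 : v < 0 := by linarith [e1.1]
  have hy2 : -8 / 10 ^ 8 < v := by norm_num; linarith [e1.2]
  have hp1 : c * v ≤ 0 := by nlinarith
  have hp2 : -4 / 10 ^ 8 < c * v := by nlinarith
  have hnum : 0 < u - c * v := by linarith [e2.2]
  refine ⟨hy1, ?_, ?_, ?_⟩
  · rw [hK]
    exact div_neg_of_pos_of_neg hnum hy1
  · rw [hK, one_div_div, lt_div_iff₀ hnum]
    norm_num at hp2 ⊢
    linarith [e1.1, e1.2, e2.1, e2.2]
  · rw [hK, one_div_div, div_lt_iff₀ hnum]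
    norm_num at hp2 ⊢
    linarith [e1.1, e1.2, e2.1, e2.2]

end SN
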