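import Mathlib

/-!
# SN.Eng : stability of the Bessel recurrence (discrete energy)

`x (n + 2) = (2 n + 3) / ρ * x (n + 1) - x n + ε n`, `|ε n| ≤ e`, `ρ ≤ M ^ 2`: with
`Q n = x (n + 1) ^ 2 + x n ^ 2 - (2 n + 3) / ρ * x (n + 1) * x n` we have
`Q n * (ρ - n - 1 / 2) ≤ (B + n e M) ^ 2` as long as `n + 1 / 2 < ρ`.
-/

set_option autoImplicit false

namespace SN

/-- the energy -/
noncomputable def En (ρ : ℝ) (x : ℕ → ℝ) (n : ℕ) : ℝ :=
  x (n + 1) ^ 2 + x n ^ 2 - (2 * n + 3) / ρ * (x (n + 1) * x n)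

private theorem step_aux {ρ W B M e c u v w ε t : ℝ} (hρ : 0 < ρ) (hM : 0 ≤ M) (hB : 0 ≤ B)
    (hWM : W ≤ M ^ 2) (hW : 0 < W) (ht : t = W - 1) (ht0 : 0 ≤ t) (hc : c * ρ = ρ - t) (hc0 : 0 ≤ c)
    (hu : u = 2 * c * v - w + ε) (hε : |ε| ≤ e)
    (hA : (v ^ 2 + w ^ 2 - 2 * c * (v * w)) * W ≤ B ^ 2) :
    (u ^ 2 + v ^ 2 - (2 * c + 2 / ρ) * (u * v)) * t ≤ (B + e * M) ^ 2 := by
  have he : 0 ≤ e := (abs_nonneg ε).trans hε
  have hc1 : c ≤ 1 := by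
    have : c * ρ ≤ 1 * ρ := by linarith
    exact le_of_mul_le_mul_right this hρ
  -- first step
  have h1 : (u ^ 2 + v ^ 2 - (2 * c + 2 / ρ) * (u * v)) * t ≤
      (u ^ 2 + v ^ 2 - 2 * c * (u * v)) * W := by
    have e1 : t / ρ = 1 - c := by
      field_simp
      linarith
    have e2 : (u ^ 2 + v ^ 2 - (2 * c + 2 / ρ) * (u * v)) * t =
        (u ^ 2 + v ^ 2 - 2 * c * (u * v)) * t - 2 * (t / ρ) * (u * v) := by ring
    rw [e2, e1, ht]
    nlinarith [mul_nonneg hc0 (sq_nonneg (u - v)), mul_nonneg (sub_nonneg.2 hc1) (sq_nonneg (u + v))]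
  refine h1.trans ?_
  -- second step
  have hq : v ^ 2 + w ^ 2 - 2 * c * (v * w) = (c * v - w) ^ 2 + (1 - c ^ 2) * v ^ 2 := by ring
  have hcc : 0 ≤ 1 - c ^ 2 := by nlinarith
  have h2 : ((c * v - w) * W) ^ 2 ≤ (B * M) ^ 2 := by
    have a1 : (c * v - w) ^ 2 * W ≤ B ^ 2 := by
      refine le_trans ?_ hA
      rw [hq]
      have := mul_nonneg hcc (sq_nonneg v)
      nlinarith
    calc ((c * v - w) * W) ^ 2 = ((c * v - w) ^ 2 * W) * W := by ring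
      _ ≤ B ^ 2 * W := mul_le_mul_of_nonneg_right a1 hW.le
      _ ≤ B ^ 2 * M ^ 2 := mul_le_mul_of_nonneg_left hWM (sq_nonneg B)
      _ = (B * M) ^ 2 := by ring
  have h3 : |(c * v - w) * W| ≤ B * M := abs_le_of_sq_le_sq h2 (mul_nonneg hB hM)
  have h4 : ε * ((c * v - w) * W) ≤ e * (B * M) := by
    refine (le_abs_self _).trans ?_
    rw [abs_mul]
    exact mul_le_mul hε h3 (abs_nonneg _) he
  have h5 : ε ^ 2 * W ≤ e ^ 2 * M ^ 2 := by
    have : ε ^ 2 ≤ e ^ 2 := sq_le_sq' (by linarith [(abs_le.1 hε).1]) ((le_abs_self ε).trans hε)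
    exact mul_le_mul this hWM hW.le (sq_nonneg e)
  have e3 : (u ^ 2 + v ^ 2 - 2 * c * (u * v)) * W =
      (v ^ 2 + w ^ 2 - 2 * c * (v * w)) * W + 2 * (ε * ((c * v - w) * W)) + ε ^ 2 * W := by
    rw [hu]
    ring
  rw [e3]
  nlinarith

theorem energy {ρ M B e : ℝ} (hρ : 0 < ρ) (hM : 0 ≤ M) (hρM : ρ ≤ M ^ 2) (hB : 0 ≤ B)
    (x ε : ℕ → ℝ) (N : ℕ) (hN : (N : ℝ) + 1 / 2 ≤ ρ)
    (hx : ∀ n, n < N → x (n + 2) = (2 * n + 3) / ρ * x (n + 1) - x n + ε n)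
    (hε : ∀ n, n < N → |ε n| ≤ e) (h0 : En ρ x 0 * (ρ - 1 / 2) ≤ B ^ 2) (n : ℕ) (hn : n ≤ N) :
    En ρ x n * (ρ - n - 1 / 2) ≤ (B + n * (e * M)) ^ 2 := by
  induction n with
  | zero => simpa using h0
  | succ n ih =>
    have hn' : n < N := hn
    have ih := ih hn'.le
    have he : 0 ≤ e := (abs_nonneg _).trans (hε n hn')
    have hcast : ((n : ℝ) + 1) + 1 / 2 ≤ ρ := by
      have : ((n + 1 : ℕ) : ℝ) ≤ N := Nat.cast_le.2 hn
      push_cast at this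
      linarith
    have hn0 : (0 : ℝ) ≤ n := Nat.cast_nonneg n
    have key := step_aux (ρ := ρ) (W := ρ - n - 1 / 2) (B := B + n * (e * M)) (M := M) (e := e)
      (c := (2 * n + 3) / (2 * ρ)) (u := x (n + 2)) (v := x (n + 1)) (w := x n) (ε := ε n)
      (t := ρ - (n + 1 : ℕ) - 1 / 2) hρ hM (by positivity) (by linarith) (by linarith)
      (by push_cast; ring) (by push_cast; linarith) (by push_cast; field_simp; ring) (by positivity)
      (by rw [hx n hn']; field_simp) (hε n hn')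
      (by
        refine le_trans (le_of_eq ?_) ih
        unfold En
        congr 1
        field_simp)
    refine le_trans (le_of_eq ?_) (key.trans (le_of_eq ?_))
    · unfold En
      push_cast
      congr 1
      field_simp
      ring
    · push_cast
      ring

/-- bound of the solution -/
theorem bound_of_energy {ρ M B : ℝ} (hρ : 0 < ρ) (hM : 0 ≤ M) (hρM : ρ ≤ M ^ 2) (hB : 0 ≤ B)
    (x : ℕ → ℝ) (n : ℕ) (hn : (n : ℝ) + 3 / 2 ≤ ρ) (h : En ρ x n * (ρ - n - 1 / 2) ≤ B ^ 2) :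
    |x n| * (ρ - n - 3 / 2) ≤ M * B ∧ |x (n + 1)| * (ρ - n - 3 / 2) ≤ M * B := by
  have hn0 : (0 : ℝ) ≤ n := Nat.cast_nonneg n
  set c := (2 * (n : ℝ) + 3) / (2 * ρ) with hc
  have hc0 : 0 ≤ c := by positivity
  have hcρ : c * ρ = n + 3 / 2 := by
    rw [hc]
    field_simp
  have hc1 : c ≤ 1 := by
    have : c * ρ ≤ 1 * ρ := by linarith
    exact le_of_mul_le_mul_right this hρ
  have key : ∀ a b : ℝ, (a ^ 2 + b ^ 2 - 2 * c * (a * b)) * (ρ - n - 1 / 2) ≤ B ^ 2 →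
      |a| * (ρ - n - 3 / 2) ≤ M * B := by
    intro a b hab
    have h1 : (1 - c) * a ^ 2 * (ρ - n - 1 / 2) ≤ B ^ 2 := by
      refine le_trans ?_ hab
      refine mul_le_mul_of_nonneg_right ?_ (by linarith)
      nlinarith [sq_nonneg (b - c * a), mul_nonneg (mul_nonneg hc0 (sub_nonneg.2 hc1)) (sq_nonneg a)]
    have h2 : (a * (ρ - n - 3 / 2)) ^ 2 ≤ (M * B) ^ 2 := by
      have e1 : (a * (ρ - n - 3 / 2)) ^ 2 ≤ ρ * ((1 - c) * a ^ 2 * (ρ - n - 1 / 2)) := by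
        have e2 : ρ * ((1 - c) * a ^ 2 * (ρ - n - 1 / 2)) =
            (ρ - n - 3 / 2) * (ρ - n - 1 / 2) * a ^ 2 := by
          have : ρ * (1 - c) = ρ - n - 3 / 2 := by linarith
          rw [← this]
          ring
        rw [e2]
        have e3 : (ρ - n - 3 / 2) * (ρ - n - 3 / 2) ≤ (ρ - n - 3 / 2) * (ρ - n - 1 / 2) :=
          mul_le_mul_of_nonneg_left (by linarith) (by linarith)
        calc (a * (ρ - n - 3 / 2)) ^ 2 = (ρ - n - 3 / 2) * (ρ - n - 3 / 2) * a ^ 2 := by ring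
          _ ≤ _ := mul_le_mul_of_nonneg_right e3 (sq_nonneg a)
      refine e1.trans ?_
      calc ρ * ((1 - c) * a ^ 2 * (ρ - n - 1 / 2)) ≤ ρ * B ^ 2 := mul_le_mul_of_nonneg_left h1 hρ.le
        _ ≤ M ^ 2 * B ^ 2 := mul_le_mul_of_nonneg_right hρM (sq_nonneg B)
        _ = (M * B) ^ 2 := by ring
    have h3 := abs_le_of_sq_le_sq h2 (mul_nonneg hM hB)
    rwa [abs_mul, abs_of_nonneg (by linarith : 0 ≤ ρ - (n : ℝ) - 3 / 2)] at h3
  have e4 : 2 * c = (2 * n + 3) / ρ := by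
    rw [hc]
    field_simp
  constructor
  · refine key (x n) (x (n + 1)) ?_
    rw [e4]
    refine le_trans (le_of_eq ?_) h
    unfold En
    ring
  · refine key (x (n + 1)) (x n) ?_
    rw [e4]
    exact h

end SN
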