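import Pool.Agent.H21.SN.KTab
import Pool.Agent.H63.SFC.Main

/-!
# SN.KB : the hypothesis of `SFC.Main` for the numbers `K`
-/

set_option autoImplicit false

namespace SN

theorem kb : SFC.KB K := by
  intro k hk he h478
  have h2 : 2 * (k / 2) = k := Nat.two_mul_div_two_of_even he
  have := K_Kt (k / 2) (by omega) (by omega)
  rwa [h2] at this

end SN
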