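import Pool.Agent.H21.SN.Div
import Pool.Agent.H63.SFC.Kt

/-!
# SN.KTab : the table `SFC.Kt` bounds the small divisors

`|K (2 j)| <= Kt j / 1000`, `j <= 605`, `j <> 239`.
-/

set_option autoImplicit false

namespace SN

theorem er_le956 (n : ℕ) (hn : n ≤ 956) : |er n| ≤ 3 / 10 ^ 14 := by
  have hr1 := rho_gt
  have h1 := (er_le_aux n (by omega)).1
  have hn' : (n : ℝ) ≤ 956 := by exact_mod_cast hn
  have h2 : 253 ≤ rho - n - 3 / 2 := by norm_num at hr1 ⊢; linarith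
  have h3 : |er n| * 253 ≤ 35 * (956 * (6 / 10 ^ 18 * 35)) := by
    refine (mul_le_mul_of_nonneg_left h2 (abs_nonneg _)).trans (h1.trans ?_)
    linarith
  norm_num at h3 ⊢
  linarith

/-- the error in units `10 ^ (-20)` -/
def du (k : ℕ) : ℕ := if k ≤ 956 then 3 * 10 ^ 6 else 2 * 10 ^ 9

theorem du_mono (n : ℕ) : du n ≤ du (n + 1) := by
  unfold du
  split_ifs <;> omega

theorem er_le_du (k : ℕ) (hk : k ≤ 1210) : |er k| ≤ (du k : ℝ) / 10 ^ 20 := by
  unfold du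
  split_ifs with h
  · refine (er_le956 k h).trans ?_
    norm_num
  · refine (er_le k hk).trans ?_
    norm_num

/-- the check against the table -/
def chkK (n : ℕ) (a b : ℤ) : Bool :=
  decide (n % 2 = 0) || decide (n = 477) ||
    decide (1000 * ((b * 1211083142251911040 - (((n + 1 : ℕ) : ℤ) + 1) * 10 ^ 15 * a).natAbs +
      (2 * du (n + 1) + 3 * 10 ^ 5) * 1211083142251911040) ≤
      SFC.Kt ((n + 1) / 2) * ((a.natAbs - du (n + 1)) * 1211083142251911040))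

theorem run_chkK : run chkK 1210 0 0 (10 ^ 20) = true := by
  decide +kernel

theorem chkK_z (n : ℕ) (hn : n < 1210) : chkK n (z (n + 1)) (z n) = true := by
  have h1 : ∀ i, i < 1210 → chkK (0 + i) (z (0 + i + 1)) (z (0 + i)) = true :=
    run_sound chkK 1210 0 run_chkK
  have := h1 n hn
  rwa [Nat.zero_add] at this

private theorem div_aux2 {a b a' b' c c' δ : ℝ} (ha : |a' - a| ≤ δ) (hb : |b' - b| ≤ δ)
    (hc : |c' - c| ≤ 1 / 10 ^ 15) (hc0 : 0 ≤ c) (hc1 : c ≤ 1) (ha2 : |a'| ≤ 3) (ha3 : δ < |a'|) {Q : ℝ}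
    (hQ0 : 0 ≤ Q) (hQ : |b' - c' * a'| + 2 * δ + 3 / 10 ^ 15 ≤ Q * (|a'| - δ)) :
    |b / a - c| ≤ Q := by
  have h1 : |a'| - δ ≤ |a| := by
    have := abs_sub_abs_le_abs_sub a' (a' - a)
    rw [sub_sub_cancel] at this
    linarith
  have ha0 : a ≠ 0 := by
    intro h
    rw [h, abs_zero] at h1
    linarith
  have e1 : b / a - c = (b - c * a) / a := by field_simp
  rw [e1, abs_div, div_le_iff₀ (abs_pos.2 ha0)]
  have e2 : b - c * a = (b' - c' * a') - (b' - b) + c * (a' - a) + (c' - c) * a' := by ring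
  have h2 : |b - c * a| ≤ |b' - c' * a'| + 2 * δ + 3 / 10 ^ 15 := by
    rw [e2]
    have t1 : |c * (a' - a)| ≤ δ := by
      rw [abs_mul, abs_of_nonneg hc0]
      exact (mul_le_of_le_one_left (abs_nonneg _) hc1).trans ha
    have t2 : |(c' - c) * a'| ≤ 3 / 10 ^ 15 := by
      rw [abs_mul]
      calc |c' - c| * |a'| ≤ 1 / 10 ^ 15 * 3 := mul_le_mul hc ha2 (abs_nonneg _) (by norm_num)
        _ = 3 / 10 ^ 15 := by norm_num
    have t3 := abs_add_le ((b' - c' * a') - (b' - b) + c * (a' - a)) ((c' - c) * a')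
    have t4 := abs_add_le ((b' - c' * a') - (b' - b)) (c * (a' - a))
    have t5 := abs_sub (b' - c' * a') (b' - b)
    linarith
  exact h2.trans (hQ.trans (mul_le_mul_of_nonneg_left h1 hQ0))

theorem K_Kt (j : ℕ) (hj : j ≤ 605) (h239 : j ≠ 239) : |K (2 * j)| ≤ (SFC.Kt j : ℝ) / 1000 := by
  rcases Nat.eq_zero_or_pos j with rfl | hpos
  · rw [Nat.mul_zero, K_zero, abs_zero]
    positivity
  obtain ⟨n, hn⟩ : ∃ n, 2 * j = n + 1 := ⟨2 * j - 1, by omega⟩
  have hn1 : n < 1210 := by omega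
  have hc := chkK_z n hn1
  have hj2 : (n + 1) / 2 = j := by omega
  have hodd : ¬ n % 2 = 0 := by omega
  have h477 : ¬ n = 477 := by omega
  simp only [chkK, Bool.or_eq_true, decide_eq_true_eq, hj2] at hc
  have hcc : 1000 * ((z n * 1211083142251911040 - (((n + 1 : ℕ) : ℤ) + 1) * 10 ^ 15 * z (n + 1)).natAbs +
      (2 * du (n + 1) + 3 * 10 ^ 5) * 1211083142251911040) ≤
      SFC.Kt j * (((z (n + 1)).natAbs - du (n + 1)) * 1211083142251911040) := by
    rcases hc with (h | h) | h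
    · exact absurd h hodd
    · exact absurd h h477
    · exact h
  rw [hn]
  have hdu := er_le_du (n + 1) (by omega)
  have hdu' : |er n| ≤ (du (n + 1) : ℝ) / 10 ^ 20 := by
    refine (er_le_du n (by omega)).trans ?_
    have : (du n : ℝ) ≤ du (n + 1) := Nat.cast_le.2 (du_mono n)
    gcongr
  obtain ⟨d, hd⟩ : ∃ d, d = du (n + 1) := ⟨_, rfl⟩
  rw [← hd] at hcc hdu hdu'
  obtain ⟨Z, hZ⟩ : ∃ Z, Z = (z (n + 1)).natAbs := ⟨_, rfl⟩
  rw [← hZ] at hcc
  have hdZ : d < Z := by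
    by_contra hlt
    rw [Nat.sub_eq_zero_of_le (not_lt.1 hlt), Nat.zero_mul, Nat.mul_zero] at hcc
    exact absurd hcc (not_le.2 (by positivity))
  have hZr : |(z (n + 1) : ℝ)| = (Z : ℝ) := by rw [hZ, natAbs_real]
  obtain ⟨X, hX⟩ : ∃ X : ℝ, X = (z n : ℝ) * 1211083142251911040 -
      (((n + 1 : ℕ) : ℝ) + 1) * 10 ^ 15 * z (n + 1) := ⟨_, rfl⟩
  have hcc' : (1000 : ℝ) * (|X| + (2 * d + 3 * 10 ^ 5) * 1211083142251911040) ≤
      SFC.Kt j * ((Z - d) * 1211083142251911040) := by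
    have e1 : |X| = ((z n * 1211083142251911040 -
        (((n + 1 : ℕ) : ℤ) + 1) * 10 ^ 15 * z (n + 1)).natAbs : ℝ) := by
      rw [natAbs_real, hX]
      norm_num
    rw [e1, ← Nat.cast_sub hdZ.le]
    exact_mod_cast hcc
  have hr1 := rho_gt
  have hr0 := rho_pos
  have hn0 : (0 : ℝ) ≤ n := Nat.cast_nonneg n
  have hn' : (n : ℝ) ≤ 1209 := by exact_mod_cast (by omega : n ≤ 1209)
  have hdZ' : (d : ℝ) < Z := Nat.cast_lt.2 hdZ
  have ha2 : |(z (n + 1) : ℝ) / 10 ^ 20| ≤ 3 := by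
    rw [abs_div, abs_of_pos (by positivity : (0 : ℝ) < 10 ^ 20), div_le_iff₀ (by positivity)]
    exact z_le (n + 1) (by omega)
  have hZZ : |(z (n + 1) : ℝ) / 10 ^ 20| = (Z : ℝ) / 10 ^ 20 := by
    rw [abs_div, hZr, abs_of_pos (by positivity : (0 : ℝ) < 10 ^ 20)]
  have key := div_aux2 (a := y (n + 1)) (b := y n) (a' := (z (n + 1) : ℝ) / 10 ^ 20) (b' := (z n : ℝ) / 10 ^ 20)
    (c := ((n + 1 : ℕ) + 1) / rho) (c' := (((n + 1 : ℕ) : ℝ) + 1) * 10 ^ 15 / 1211083142251911040)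
    (δ := (d : ℝ) / 10 ^ 20) hdu hdu'
    (rho_inv_close (n + 1) (by omega)) (by positivity)
    (by
      rw [div_le_one hr0]
      push_cast
      norm_num at hr1
      linarith) ha2 (by rw [hZZ]; gcongr) (Q := (SFC.Kt j : ℝ) / 1000) (by positivity)
    (by
      have e3 : (z n : ℝ) / 10 ^ 20 - (((n + 1 : ℕ) : ℝ) + 1) * 10 ^ 15 / 1211083142251911040 *
          ((z (n + 1) : ℝ) / 10 ^ 20) = ((z n : ℝ) * 1211083142251911040 -
            (((n + 1 : ℕ) : ℝ) + 1) * 10 ^ 15 * z (n + 1)) / (1211083142251911040 * 10 ^ 20) := by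
        field_simp
      rw [e3, ← hX, abs_div, abs_of_pos (by positivity : (0 : ℝ) < 1211083142251911040 * 10 ^ 20), hZZ]
      have e4 : |X| / (1211083142251911040 * 10 ^ 20) + 2 * ((d : ℝ) / 10 ^ 20) + 3 / 10 ^ 15 =
          (1000 * (|X| + (2 * d + 3 * 10 ^ 5) * 1211083142251911040)) /
            (1000 * 1211083142251911040 * 10 ^ 20) := by
        field_simp
        ring
      have e5 : (SFC.Kt j : ℝ) / 1000 * ((Z : ℝ) / 10 ^ 20 - d / 10 ^ 20) =
          (SFC.Kt j * ((Z - d) * 1211083142251911040)) / (1000 * 1211083142251911040 * 10 ^ 20) := by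
        field_simp
      rw [e4, e5]
      exact div_le_div_of_nonneg_right hcc' (by positivity))
  rw [K_eq (n + 1) n rfl]
  exact key

end SN
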