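import Pool.Agent.H21.SN.KTab
import Pool.Agent.H68.SC.Jl
import Pool.Agent.H68.SC.JPos

/-!
# SN.Link : `y k = j_k(rho) / j_0(rho)`, `K k = j_k'(rho) / j_k(rho)` for `H68.SC.jl`, `djl`
-/

set_option autoImplicit false

namespace SN

open Pool.Agent.H68.SC (jl djl)

theorem jl_zero_ne : jl 0 rho ≠ 0 := by
  have h0 := rho_pos
  intro h
  rw [jl, div_eq_zero_iff] at h
  have hs : Real.sin rho = 0 := h.resolve_right h0.ne'
  have hc : Real.cos rho = 0 := by
    have h1 := sin_rho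
    rw [hs] at h1
    exact (mul_eq_zero.1 h1.symm).resolve_left h0.ne'
  have := Real.sin_sq_add_cos_sq rho
  rw [hs, hc] at this
  norm_num at this

theorem jl_one : jl 1 rho = 0 := by
  have h0 := rho_pos
  rw [jl, sin_rho]
  field_simp
  ring

theorem jl_rho (k : ℕ) : jl k rho = jl 0 rho * y k := by
  induction k using Nat.twoStepInduction with
  | zero => rw [y, mul_one]
  | one => rw [jl_one, y, mul_zero]
  | more n h1 h2 =>
    rw [Pool.Agent.H68.SC.jl_rec, h1, h2, show y (n + 2) = (2 * n + 3) / rho * y (n + 1) - y n by rw [y]]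
    ring

theorem djl_zero : djl 0 rho = 0 := by
  unfold djl
  rw [zero_add, jl_one]
  simp

theorem djl_rho (k : ℕ) : djl (k + 1) rho = jl 0 rho * (y k - (k + 2) / rho * y (k + 1)) := by
  rw [Pool.Agent.H68.SC.djl_succ k rho_pos, jl_rho k, jl_rho (k + 1)]
  ring

theorem djl_eq (k : ℕ) (h : y k ≠ 0) : djl k rho = K k * jl k rho := by
  rcases k with _ | k
  · rw [djl_zero, K_zero, zero_mul]
  · rw [djl_rho, jl_rho (k + 1), K_eq (k + 1) k rfl]
    have h0 := rho_pos.ne'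
    push_cast
    field_simp
    ring

theorem y_ne (k : ℕ) (hk : Even k) (hk1 : k ≤ 1210) (h478 : k ≠ 478) : y k ≠ 0 := by
  rcases Nat.eq_zero_or_pos k with rfl | hpos
  · rw [y]
    exact one_ne_zero
  · have h2 : 2 ≤ k := by
      obtain ⟨j, rfl⟩ := hk
      omega
    exact y_ne_zero k hk h2 hk1 h478

theorem rho_sq_le (k : ℕ) (hk : 1211 ≤ k) : rho ^ 2 ≤ (k : ℝ) * (k + 1) := by
  have h2 := rho_lt
  have h0 := rho_pos
  have hk' : (1211 : ℝ) ≤ k := by exact_mod_cast hk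
  have h3 : rho ≤ 1211.084 := by norm_num at h2 ⊢; linarith
  nlinarith

theorem jl_ne (k : ℕ) (hk : Even k) (h : k ≠ 478) : jl k rho ≠ 0 := by
  rcases Nat.lt_or_ge 1210 k with h1 | h1
  · exact (Pool.Agent.H68.SC.jl_pos_sq k rho_pos (rho_sq_le k h1)).ne'
  · rw [jl_rho]
    exact mul_ne_zero jl_zero_ne (y_ne k hk h1 h)

theorem logd (k : ℕ) (hk : Even k) (h1 : k ≤ 1210) (h : k ≠ 478) : djl k rho / jl k rho = K k := by
  rw [djl_eq k (y_ne k hk h1 h), mul_div_assoc, div_self (jl_ne k hk h), mul_one]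

theorem djl_le (k : ℕ) (hk : Even k) (h : k ≠ 478) (h2 : k ≤ 1210) : |djl k rho| ≤ 612 * |jl k rho| := by
  rw [djl_eq k (y_ne k hk h2 h), abs_mul]
  refine mul_le_mul_of_nonneg_right ?_ (abs_nonneg _)
  rcases Nat.eq_zero_or_pos k with rfl | hpos
  · rw [K_zero, abs_zero]
    norm_num
  · have h3 : 2 ≤ k := by
      obtain ⟨j, rfl⟩ := hk
      omega
    exact K_le' k hk h3 h2 h

theorem y_478_ne : y 478 ≠ 0 := D_478.1.ne

theorem djl_478_ne : djl 478 rho ≠ 0 := by
  rw [djl_eq 478 y_478_ne, jl_rho]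
  exact mul_ne_zero D_478.2.1.ne (mul_ne_zero jl_zero_ne y_478_ne)

theorem D_eq : jl 478 rho / djl 478 rho = 1 / K 478 := by
  have h1 : jl 478 rho ≠ 0 := by
    rw [jl_rho]
    exact mul_ne_zero jl_zero_ne y_478_ne
  rw [djl_eq 478 y_478_ne, div_mul_cancel_right₀ h1, one_div]

theorem D_gt : -(80414 / 10 ^ 12 : ℝ) < jl 478 rho / djl 478 rho := by
  rw [D_eq]
  have := D_478.2.2.1
  norm_num at this ⊢
  linarith

theorem D_lt : jl 478 rho / djl 478 rho < -(80412 / 10 ^ 12 : ℝ) := by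
  rw [D_eq]
  have := D_478.2.2.2
  norm_num at this ⊢
  linarith

end SN
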