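import Mathlib

/-!
# SN.Rho : the zero rho = 1211.0831422519110404... of j_1 (tan rho = rho)
-/

set_option autoImplicit false

namespace SN

private theorem fval (r d : ℝ) (h : d = 385.5 * Real.pi - r) :
    Real.sin r - r * Real.cos r = r * Real.sin d - Real.cos d := by
  have h1 : r = (Real.pi / 2 - d) + (385 : ℕ) * Real.pi := by
    rw [h]
    push_cast
    ring
  have h2 : Real.sin r = - Real.cos d := by
    rw [h1, Real.sin_add_nat_mul_pi, Real.sin_pi_div_two_sub]
    norm_num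
  have h3 : Real.cos r = - Real.sin d := by
    rw [h1, Real.cos_add_nat_mul_pi, Real.cos_pi_div_two_sub]
    norm_num
  rw [h2, h3]
  ring

private theorem bds {d dl du : ℝ} (h0 : 0 < dl) (h1 : dl < d) (h2 : d < du) (h3 : du ≤ 1) :
    dl - du ^ 3 / 6 - du ^ 5 / 100 ≤ Real.sin d ∧ Real.sin d ≤ du - dl ^ 3 / 6 + du ^ 5 / 100 ∧
      1 - du ^ 2 / 2 - du ^ 4 * (5 / 96) ≤ Real.cos d ∧
      Real.cos d ≤ 1 - dl ^ 2 / 2 + du ^ 4 * (5 / 96) := by
  have hd : 0 < d := h0.trans h1
  have habs : |d| = d := abs_of_pos hd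
  have hs := Real.sin_bound (x := d) (by rw [habs]; linarith)
  have hc := Real.cos_bound (x := d) (by rw [habs]; linarith)
  rw [habs, abs_le] at hs hc
  have a3 : d ^ 3 ≤ du ^ 3 := pow_le_pow_left₀ hd.le h2.le 3
  have a3' : dl ^ 3 ≤ d ^ 3 := pow_le_pow_left₀ h0.le h1.le 3
  have a5 : d ^ 5 ≤ du ^ 5 := pow_le_pow_left₀ hd.le h2.le 5
  have a4 : d ^ 4 ≤ du ^ 4 := pow_le_pow_left₀ hd.le h2.le 4
  have a2 : d ^ 2 ≤ du ^ 2 := pow_le_pow_left₀ hd.le h2.le 2
  have a2' : dl ^ 2 ≤ d ^ 2 := pow_le_pow_left₀ h0.le h1.le 2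
  refine ⟨?_, ?_, ?_, ?_⟩
  · linarith [hs.1]
  · linarith [hs.2]
  · linarith [hc.1]
  · linarith [hc.2]

private theorem fa : 0 < Real.sin 1211.083142251911039 -
    1211.083142251911039 * Real.cos 1211.083142251911039 := by
  have p1 := Real.pi_gt_d20
  have p2 := Real.pi_lt_d20
  rw [fval 1211.083142251911039 _ rfl]
  obtain ⟨b1, b2, b3, b4⟩ := bds (d := 385.5 * Real.pi - 1211.083142251911039)
    (dl := 0.00082570695425442) (du := 0.00082570695425444) (by norm_num) (by norm_num at p1 p2 ⊢; linarith)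
    (by norm_num at p1 p2 ⊢; linarith) (by norm_num)
  norm_num at b1 b2 b3 b4 ⊢
  linarith

private theorem fb : Real.sin 1211.083142251911041 -
    1211.083142251911041 * Real.cos 1211.083142251911041 < 0 := by
  have p1 := Real.pi_gt_d20
  have p2 := Real.pi_lt_d20
  rw [fval 1211.083142251911041 _ rfl]
  obtain ⟨b1, b2, b3, b4⟩ := bds (d := 385.5 * Real.pi - 1211.083142251911041)
    (dl := 0.00082570695425242) (du := 0.00082570695425244) (by norm_num) (by norm_num at p1 p2 ⊢; linarith)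
    (by norm_num at p1 p2 ⊢; linarith) (by norm_num)
  norm_num at b1 b2 b3 b4 ⊢
  linarith

theorem exists_rho : ∃ r : ℝ, 1211.083142251911039 < r ∧ r < 1211.083142251911041 ∧
    Real.sin r = r * Real.cos r := by
  have hc : ContinuousOn (fun r : ℝ => Real.sin r - r * Real.cos r)
      (Set.Icc 1211.083142251911039 1211.083142251911041) := by
    fun_prop
  obtain ⟨r, hr, h0⟩ := intermediate_value_Icc' (by norm_num) hc
    (show (0 : ℝ) ∈ Set.Icc _ _ from ⟨fb.le, fa.le⟩)
  have h0' : Real.sin r - r * Real.cos r = 0 := h0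
  refine ⟨r, lt_of_le_of_ne hr.1 ?_, lt_of_le_of_ne hr.2 ?_, sub_eq_zero.1 h0'⟩
  · rintro rfl
    exact absurd h0' fa.ne'
  · rintro rfl
    exact absurd h0' fb.ne

/-- the zero of `j_1` -/
noncomputable def rho : ℝ := exists_rho.choose

theorem rho_gt : 1211.083142251911039 < rho := exists_rho.choose_spec.1

theorem rho_lt : rho < 1211.083142251911041 := exists_rho.choose_spec.2.1

theorem sin_rho : Real.sin rho = rho * Real.cos rho := exists_rho.choose_spec.2.2

theorem rho_pos : 0 < rho := lt_trans (by norm_num) rho_gt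

end SN
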