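import Pool.Agent.H21.SN.Rho
import Pool.Agent.H21.SN.Eng

/-!
# SN.Tab : the numbers y_n = j_n(rho) / j_0(rho), n <= 1210

`y 0 = 1`, `y 1 = 0`, `y (n + 2) = (2 n + 3) / rho * y (n + 1) - y n`. The integers `z n` (one kernel
loop) satisfy `|z n / 10 ^ 20 - y n| <= 2 * 10 ^ (-11)` (`10 ^ (-14)` for `n <= 478`).
-/

set_option autoImplicit false

namespace SN

/-- `j_n(rho) / j_0(rho)` -/
noncomputable def y : ℕ → ℝ
  | 0 => 1
  | 1 => 0
  | (n + 2) => (2 * n + 3) / rho * y (n + 1) - y n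

/-- one step of the integer recurrence -/
def stz (n : ℕ) (a b : ℤ) : ℤ := ((2 * (n : ℤ) + 3) * 10 ^ 15 * a) / 1211083142251911040 - b

/-- integer approximation -/
def z : ℕ → ℤ
  | 0 => 10 ^ 20
  | 1 => 0
  | (n + 2) => stz n (z (n + 1)) (z n)

/-- run a check for `m` consecutive pairs -/
def run (chk : ℕ → ℤ → ℤ → Bool) : ℕ → ℕ → ℤ → ℤ → Bool
  | 0, _, _, _ => true
  | (m + 1), n, a, b => chk n a b && run chk m (n + 1) (stz n a b) a

theorem run_sound (chk : ℕ → ℤ → ℤ → Bool) (m : ℕ) : ∀ n : ℕ,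
    run chk m n (z (n + 1)) (z n) = true → ∀ i, i < m → chk (n + i) (z (n + i + 1)) (z (n + i)) = true := by
  induction m with
  | zero => intro n _ i hi; exact absurd hi (Nat.not_lt_zero i)
  | succ m ih =>
    intro n h i hi
    rw [run, Bool.and_eq_true] at h
    rcases Nat.eq_zero_or_pos i with rfl | hpos
    · exact h.1
    · obtain ⟨k, rfl⟩ : ∃ k, i = k + 1 := ⟨i - 1, by omega⟩
      have h2 := ih (n + 1) h.2 k (by omega)
      have e1 : n + 1 + k = n + (k + 1) := by omega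
      rw [e1] at h2
      exact h2

/-- the table of upper bounds of `1000 * |K k|` as a function of `z k`, `z (k - 1)` -/
def kh (k : ℕ) (a b : ℤ) : ℕ :=
  1000 * (b * 1211083142251911040 - ((k : ℤ) + 1) * 10 ^ 15 * a).natAbs / (a.natAbs * 1211083142251911040) + 2

/-- the check: `|z n| <= 3 * 10 ^ 20`, and for even `k = n + 1 <> 478` the small divisor -/
def chk (n : ℕ) (a b : ℤ) : Bool :=
  (decide (a.natAbs ≤ 3 * 10 ^ 20) && decide (b.natAbs ≤ 3 * 10 ^ 20)) &&
    (decide (n % 2 = 0) || decide (n = 477) || (decide (10 ^ 17 ≤ a.natAbs) && decide (kh (n + 1) a b ≤ 612000)))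

theorem run_chk : run chk 1210 0 0 (10 ^ 20) = true := by
  decide +kernel

theorem chk_z (n : ℕ) (hn : n < 1210) : chk n (z (n + 1)) (z n) = true := by
  have h1 : ∀ i, i < 1210 → chk (0 + i) (z (0 + i + 1)) (z (0 + i)) = true := run_sound chk 1210 0 run_chk
  have := h1 n hn
  rwa [Nat.zero_add] at this

theorem z_le (n : ℕ) (hn : n ≤ 1210) : |(z n : ℝ)| ≤ 3 * 10 ^ 20 := by
  have h2 : (z n).natAbs ≤ 3 * 10 ^ 20 := by
    rcases Nat.lt_or_ge n 1210 with h | h
    · have := chk_z n h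
      rw [chk, Bool.and_eq_true, Bool.and_eq_true, decide_eq_true_eq, decide_eq_true_eq] at this
      exact this.1.2
    · have e : n = 1209 + 1 := by omega
      have := chk_z 1209 (by norm_num)
      rw [chk, Bool.and_eq_true, Bool.and_eq_true, decide_eq_true_eq, decide_eq_true_eq] at this
      rw [e]
      exact this.1.1
  rw [← Int.cast_abs, Int.abs_eq_natAbs]
  exact_mod_cast h2

/-- the error of the approximation -/
noncomputable def er (n : ℕ) : ℝ := (z n : ℝ) / 10 ^ 20 - y n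

/-- the residual of the integer recurrence -/
noncomputable def rs (n : ℕ) : ℝ :=
  (z (n + 2) : ℝ) / 10 ^ 20 - (2 * n + 3) / rho * ((z (n + 1) : ℝ) / 10 ^ 20) + (z n : ℝ) / 10 ^ 20

theorem er_rec (n : ℕ) : er (n + 2) = (2 * n + 3) / rho * er (n + 1) - er n + rs n := by
  have h : y (n + 2) = (2 * n + 3) / rho * y (n + 1) - y n := by rw [y]
  unfold er rs
  rw [h]
  ring

theorem rs_le (n : ℕ) (hn : n < 1209) : |rs n| ≤ 6 / 10 ^ 18 := by
  have h1 := z_le (n + 1) (by omega)
  have hr1 := rho_gt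
  have hr2 := rho_lt
  have hr0 := rho_pos
  have hn' : (n : ℝ) ≤ 1208 := by exact_mod_cast (by omega : n ≤ 1208)
  have hn0 : (0 : ℝ) ≤ n := Nat.cast_nonneg n
  have hz : z (n + 2) = ((2 * (n : ℤ) + 3) * 10 ^ 15 * z (n + 1)) / 1211083142251911040 - z n := by
    rw [z, stz]
  set a : ℤ := z (n + 1) with ha
  set N : ℤ := (2 * (n : ℤ) + 3) * 10 ^ 15 * a with hN
  set q : ℤ := N / 1211083142251911040 with hq
  have hq1 : 1211083142251911040 * q ≤ N := by
    have := Int.mul_ediv_self_le (x := N) (k := 1211083142251911040) (by norm_num)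
    exact this
  have hq2 : N < 1211083142251911040 * q + 1211083142251911040 := by
    have := Int.lt_mul_ediv_self_add (x := N) (k := 1211083142251911040) (by norm_num)
    exact this
  have hq1' : (1211083142251911040 : ℝ) * q ≤ N := by exact_mod_cast hq1
  have hq2' : (N : ℝ) < 1211083142251911040 * q + 1211083142251911040 := by exact_mod_cast hq2
  have hN' : (N : ℝ) = (2 * n + 3) * 10 ^ 15 * a := by
    rw [hN]
    push_cast
    ring
  have e1 : rs n = ((q : ℝ) - (2 * n + 3) / rho * a) / 10 ^ 20 := by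
    unfold rs
    rw [hz, ← ha]
    push_cast
    ring
  -- the true value of the product
  obtain ⟨d, hd⟩ : ∃ d : ℝ, d = (2 * n + 3) * 10 ^ 15 * a / 1211083142251911040 - (2 * n + 3) / rho * a :=
    ⟨_, rfl⟩
  have hd2 : |d| ≤ 510 := by
    have e2 : d = (2 * n + 3) * a * ((10 ^ 15 / 1211083142251911040) - 1 / rho) := by
      rw [hd]
      ring
    have e3 : |(10 ^ 15 / 1211083142251911040 : ℝ) - 1 / rho| ≤ 6.9 / 10 ^ 22 := by
      have e4 : (10 ^ 15 / 1211083142251911040 : ℝ) - 1 / rho =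
          (rho - 1211.08314225191104) / (1211.08314225191104 * rho) := by
        field_simp
        ring
      rw [e4, abs_div, abs_of_pos (by positivity : (0 : ℝ) < 1211.08314225191104 * rho), div_le_iff₀ (by positivity)]
      have e5 : |rho - 1211.08314225191104| ≤ 1 / 10 ^ 15 := by
        rw [abs_le]
        constructor
        · norm_num at hr1 ⊢
          linarith
        · norm_num at hr2 ⊢
          linarith
      refine e5.trans ?_
      nlinarith
    rw [e2, abs_mul, abs_mul, abs_of_nonneg (by positivity : (0 : ℝ) ≤ 2 * n + 3)]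
    have e6 : (2 * (n : ℝ) + 3) * |(a : ℝ)| ≤ 2419 * (3 * 10 ^ 20) :=
      mul_le_mul (by linarith) h1 (abs_nonneg _) (by norm_num)
    calc (2 * (n : ℝ) + 3) * |(a : ℝ)| * |(10 ^ 15 / 1211083142251911040 : ℝ) - 1 / rho| ≤
        2419 * (3 * 10 ^ 20) * (6.9 / 10 ^ 22) := mul_le_mul e6 e3 (abs_nonneg _) (by norm_num)
      _ ≤ 510 := by norm_num
  have e7 : rs n = ((q : ℝ) - N / 1211083142251911040 + d) / 10 ^ 20 := by
    rw [e1, hd, hN']
    ring
  rw [e7, abs_div, abs_of_pos (by positivity : (0 : ℝ) < 10 ^ 20), div_le_iff₀ (by positivity)]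
  rw [abs_le] at hd2 ⊢
  have e8 : (N : ℝ) / 1211083142251911040 < q + 1 := by
    rw [div_lt_iff₀ (by norm_num)]
    linarith
  have e9 : (q : ℝ) ≤ N / 1211083142251911040 := by
    rw [le_div_iff₀ (by norm_num)]
    linarith
  constructor
  · norm_num
    linarith [hd2.1]
  · norm_num
    linarith [hd2.2]

theorem er_le_aux (n : ℕ) (hn : n ≤ 1209) :
    |er n| * (rho - n - 3 / 2) ≤ 35 * (n * (6 / 10 ^ 18 * 35)) ∧
      |er (n + 1)| * (rho - n - 3 / 2) ≤ 35 * (n * (6 / 10 ^ 18 * 35)) := by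
  have hr1 := rho_gt
  have hr2 := rho_lt
  have hr0 := rho_pos
  have hn' : (n : ℝ) ≤ 1209 := by exact_mod_cast hn
  have h0 : er 0 = 0 := by
    unfold er
    norm_num [z, y]
  have h1 : er 1 = 0 := by
    unfold er
    simp [z, y]
  have key := energy (ρ := rho) (M := 35) (B := 0) (e := 6 / 10 ^ 18) hr0 (by norm_num) (by norm_num at hr2 ⊢; linarith)
    le_rfl er rs 1209 (by norm_num at hr1 ⊢; linarith) (fun n _ => er_rec n) (fun n h => rs_le n h)
    (by unfold En; rw [h0, h1]; norm_num) n hn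
  rw [zero_add] at key
  exact bound_of_energy hr0 (by norm_num) (by norm_num at hr2 ⊢; linarith) (by positivity) er n
    (by norm_num at hr1 ⊢; linarith) key

theorem er_le (n : ℕ) (hn : n ≤ 1210) : |er n| ≤ 2 / 10 ^ 11 := by
  have hr1 := rho_gt
  rcases Nat.lt_or_ge n 1210 with h | h
  · have h1 := (er_le_aux n (by omega)).1
    have hn' : (n : ℝ) ≤ 1209 := by exact_mod_cast (by omega : n ≤ 1209)
    have h2 : 0.58 ≤ rho - n - 3 / 2 := by norm_num at hr1 ⊢; linarith
    have h3 : |er n| * 0.58 ≤ 35 * (1209 * (6 / 10 ^ 18 * 35)) := by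
      refine (mul_le_mul_of_nonneg_left h2 (abs_nonneg _)).trans (h1.trans ?_)
      linarith
    norm_num at h3 ⊢
    linarith
  · have e : n = 1209 + 1 := by omega
    subst e
    have h1 := (er_le_aux 1209 le_rfl).2
    have h2 : 0.58 ≤ rho - (1209 : ℕ) - 3 / 2 := by norm_num at hr1 ⊢; linarith
    have h3 : |er (1209 + 1)| * 0.58 ≤ 35 * ((1209 : ℕ) * (6 / 10 ^ 18 * 35)) :=
      (mul_le_mul_of_nonneg_left h2 (abs_nonneg _)).trans h1
    norm_num at h3 ⊢
    linarith

theorem er_le478 (n : ℕ) (hn : n ≤ 478) : |er n| ≤ 1 / 10 ^ 14 := by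
  have hr1 := rho_gt
  have h1 := (er_le_aux n (by omega)).1
  have hn' : (n : ℝ) ≤ 478 := by exact_mod_cast hn
  have h2 : 731 ≤ rho - n - 3 / 2 := by norm_num at hr1 ⊢; linarith
  have h3 : |er n| * 731 ≤ 35 * (478 * (6 / 10 ^ 18 * 35)) := by
    refine (mul_le_mul_of_nonneg_left h2 (abs_nonneg _)).trans (h1.trans ?_)
    linarith
  norm_num at h3 ⊢
  linarith

end SN
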